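import Pool.Agent.Y284.ID.Defs

set_option autoImplicit false

/-! # Passing from a real Banach space to a Banach space over `𝕜` -/

open Filter Topology

noncomputable section

namespace Pool.Agent.Y284.ID

/-- `F` is a version over `𝕜` of the real space `E`. -/
structure Cx (𝕜 E F : Type) [RCLike 𝕜] [NormedAddCommGroup E] [NormedSpace ℝ E]
    [NormedAddCommGroup F] [NormedSpace 𝕜 F] where
  re : F → E
  im : F → E
  inc : E → F
  re_add : ∀ x y, re (x + y) = re x + re y
  im_add : ∀ x y, im (x + y) = im x + im y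
  re_smul : ∀ (c : 𝕜) x, re (c • x) = RCLike.re c • re x - RCLike.im c • im x
  im_smul : ∀ (c : 𝕜) x, im (c • x) = RCLike.re c • im x + RCLike.im c • re x
  inc_add : ∀ u v, inc (u + v) = inc u + inc v
  inc_smul : ∀ (c : ℝ) u, inc (c • u) = (c : 𝕜) • inc u
  re_inc : ∀ u, re (inc u) = u
  dec : ∀ z, inc (re z) + (RCLike.I : 𝕜) • inc (im z) = z
  norm_re_le : ∀ z, ‖re z‖ ≤ ‖z‖
  norm_im_le : ∀ z, ‖im z‖ ≤ ‖z‖
  norm_inc_le : ∀ u, ‖inc u‖ ≤ ‖u‖

variable {𝕜 E F : Type} [RCLike 𝕜] [NormedAddCommGroup E] [NormedSpace ℝ E]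
    [NormedAddCommGroup F] [NormedSpace 𝕜 F] (c : Cx 𝕜 E F)

namespace Cx

lemma re_sub (x y : F) : c.re (x - y) = c.re x - c.re y := by
  have h := c.re_add (x - y) y
  rw [sub_add_cancel] at h
  rw [h, add_sub_cancel_right]

lemma im_sub (x y : F) : c.im (x - y) = c.im x - c.im y := by
  have h := c.im_add (x - y) y
  rw [sub_add_cancel] at h
  rw [h, add_sub_cancel_right]

lemma inc_sub (x y : E) : c.inc (x - y) = c.inc x - c.inc y := by
  have h := c.inc_add (x - y) y
  rw [sub_add_cancel] at h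
  rw [h, add_sub_cancel_right]

lemma inc_zero : c.inc 0 = 0 := by
  have h := c.inc_sub 0 0
  rwa [sub_zero, sub_self] at h

lemma continuous_re : Continuous c.re := by
  refine (LipschitzWith.of_dist_le_mul (K := 1) fun x y => ?_).continuous
  rw [dist_eq_norm, dist_eq_norm, ← c.re_sub, NNReal.coe_one, one_mul]
  exact c.norm_re_le _

lemma continuous_im : Continuous c.im := by
  refine (LipschitzWith.of_dist_le_mul (K := 1) fun x y => ?_).continuous
  rw [dist_eq_norm, dist_eq_norm, ← c.im_sub, NNReal.coe_one, one_mul]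
  exact c.norm_im_le _

lemma continuous_inc : Continuous c.inc := by
  refine (LipschitzWith.of_dist_le_mul (K := 1) fun x y => ?_).continuous
  rw [dist_eq_norm, dist_eq_norm, ← c.inc_sub, NNReal.coe_one, one_mul]
  exact c.norm_inc_le _

lemma norm_I_le : ‖(RCLike.I : 𝕜)‖ ≤ 1 := by
  by_cases h : (RCLike.I : 𝕜) = 0
  · rw [h, norm_zero]; exact zero_le_one
  · exact (RCLike.norm_I_of_ne_zero h).le

lemma norm_mk_le (u v : E) : ‖c.inc u + (RCLike.I : 𝕜) • c.inc v‖ ≤ ‖u‖ + ‖v‖ := by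
  refine (norm_add_le _ _).trans (add_le_add (c.norm_inc_le u) ?_)
  rw [norm_smul]
  calc ‖(RCLike.I : 𝕜)‖ * ‖c.inc v‖ ≤ 1 * ‖c.inc v‖ :=
        mul_le_mul_of_nonneg_right norm_I_le (norm_nonneg _)
    _ ≤ ‖v‖ := by rw [one_mul]; exact c.norm_inc_le v

/-- the extension of a real operator -/
def ex (T : E →L[ℝ] E) : F →L[𝕜] F :=
  LinearMap.mkContinuous
    { toFun := fun z => c.inc (T (c.re z)) + (RCLike.I : 𝕜) • c.inc (T (c.im z))
      map_add' := fun z z' => by
        rw [c.re_add, c.im_add, map_add, map_add, c.inc_add, c.inc_add, smul_add]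
        abel
      map_smul' := fun a z => by
        rw [RingHom.id_apply, c.re_smul, c.im_smul, map_sub, map_add, map_smul, map_smul, map_smul,
          map_smul, c.inc_sub, c.inc_add, c.inc_smul, c.inc_smul, c.inc_smul, c.inc_smul]
        set p := c.inc (T (c.re z))
        set q := c.inc (T (c.im z))
        have ha : a = (RCLike.re a : 𝕜) + (RCLike.im a : 𝕜) * RCLike.I :=
          (RCLike.re_add_im a).symm
        have hI : (RCLike.im a : 𝕜) * (RCLike.I * RCLike.I) = -(RCLike.im a : 𝕜) := by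
          rcases RCLike.I_mul_I (K := 𝕜) with h | h
          · have h3 : RCLike.im a = 0 := by
              have := RCLike.I_im a
              rw [h, map_zero, mul_zero] at this
              exact this.symm
            rw [h3]; simp
          · rw [h]; ring
        have e1 : a • (p + (RCLike.I : 𝕜) • q) = a • p + (a * RCLike.I) • q := by
          rw [smul_add, smul_smul]
        have e2 : a * RCLike.I = (RCLike.re a : 𝕜) * RCLike.I - (RCLike.im a : 𝕜) := by
          calc a * RCLike.I = ((RCLike.re a : 𝕜) + (RCLike.im a : 𝕜) * RCLike.I) * RCLike.I := by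
                rw [← ha]
            _ = (RCLike.re a : 𝕜) * RCLike.I + (RCLike.im a : 𝕜) * (RCLike.I * RCLike.I) := by ring
            _ = _ := by rw [hI]; ring
        have e3 : a • p = (RCLike.re a : 𝕜) • p + ((RCLike.im a : 𝕜) * RCLike.I) • p := by
          rw [← add_smul, ← ha]
        rw [e1, e2, e3, sub_smul, smul_add, smul_smul, smul_smul, mul_comm (RCLike.I : 𝕜),
          mul_comm (RCLike.I : 𝕜)]
        abel }
    (‖T‖ + ‖T‖) (fun z => by
      refine (c.norm_mk_le _ _).trans ?_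
      rw [add_mul]
      refine add_le_add ?_ ?_
      · exact (T.le_opNorm _).trans
          (mul_le_mul_of_nonneg_left (c.norm_re_le z) T.opNorm_nonneg)
      · exact (T.le_opNorm _).trans
          (mul_le_mul_of_nonneg_left (c.norm_im_le z) T.opNorm_nonneg))

lemma ex_apply (T : E →L[ℝ] E) (z : F) :
    c.ex T z = c.inc (T (c.re z)) + (RCLike.I : 𝕜) • c.inc (T (c.im z)) := rfl

lemma ex_finRank (T : E →L[ℝ] E) (hT : FiniteDimensional ℝ (LinearMap.range (T : E →ₗ[ℝ] E))) :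
    FinRank (c.ex T) := by
  set R := LinearMap.range (T : E →ₗ[ℝ] E) with hR
  obtain ⟨B, hB⟩ := (Submodule.fg_iff_finiteDimensional R).2 hT
  set V : Submodule 𝕜 F := Submodule.span 𝕜 (c.inc '' (B : Set E)) with hV
  have hinc : ∀ u ∈ R, c.inc u ∈ V := by
    intro u hu
    rw [← hB] at hu
    refine Submodule.span_induction (p := fun u _ => c.inc u ∈ V) ?_ ?_ ?_ ?_ hu
    · intro x hx
      exact Submodule.subset_span ⟨x, hx, rfl⟩
    · rw [c.inc_zero]
      exact V.zero_mem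
    · intro x y _ _ hx hy
      rw [c.inc_add]
      exact V.add_mem hx hy
    · intro a x _ hx
      rw [c.inc_smul]
      exact V.smul_mem _ hx
  have : FiniteDimensional 𝕜 V := FiniteDimensional.span_of_finite 𝕜 ((B.finite_toSet).image _)
  have hle : LinearMap.range ((c.ex T : F →L[𝕜] F) : F →ₗ[𝕜] F) ≤ V := by
    rintro _ ⟨z, rfl⟩
    change c.ex T z ∈ V
    rw [c.ex_apply]
    exact V.add_mem (hinc _ ⟨_, rfl⟩) (V.smul_mem _ (hinc _ ⟨_, rfl⟩))
  exact Submodule.finiteDimensional_of_le hle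

include c in
theorem hasAP (h : ∀ K : Set E, IsCompact K → ∀ ε : ℝ, 0 < ε →
    ∃ T : E →L[ℝ] E, FiniteDimensional ℝ (LinearMap.range (T : E →ₗ[ℝ] E)) ∧
      ∀ x ∈ K, ‖T x - x‖ ≤ ε) : HasAP 𝕜 F := by
  intro K hK ε hε
  obtain ⟨T, hT, hTK⟩ := h _ ((hK.image c.continuous_re).union (hK.image c.continuous_im))
    (ε / 2) (by positivity)
  refine ⟨c.ex T, c.ex_finRank T hT, fun z hz => ?_⟩
  have h1 := hTK (c.re z) (Or.inl ⟨z, hz, rfl⟩)
  have h2 := hTK (c.im z) (Or.inr ⟨z, hz, rfl⟩)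
  have h3 : c.ex T z - z = c.inc (T (c.re z) - c.re z) +
      (RCLike.I : 𝕜) • c.inc (T (c.im z) - c.im z) := by
    have h4 := c.dec z
    rw [c.inc_sub, c.inc_sub, smul_sub, c.ex_apply]
    nth_rewrite 3 [← h4]
    abel
  rw [h3]
  refine (c.norm_mk_le _ _).trans ?_
  linarith

/-- the real part of an operator -/
def rp (S : F →L[𝕜] F) : E →L[ℝ] E := LinearMap.mkContinuous
    { toFun := fun u => c.re (S (c.inc u))
      map_add' := fun u v => by rw [c.inc_add, map_add, c.re_add]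
      map_smul' := fun a u => by
        rw [c.inc_smul, map_smul, c.re_smul]
        simp } ‖S‖ (fun u => by
      refine (c.norm_re_le _).trans ((S.le_opNorm _).trans ?_)
      exact mul_le_mul_of_nonneg_left (c.norm_inc_le u) (norm_nonneg _))

lemma rp_apply (S : F →L[𝕜] F) (u : E) : c.rp S u = c.re (S (c.inc u)) := rfl

lemma rp_finRank (S : F →L[𝕜] F) (hS : FinRank S) :
    FiniteDimensional ℝ (LinearMap.range (c.rp S : E →ₗ[ℝ] E)) := by
  have hf : FiniteDimensional 𝕜 (LinearMap.range (S : F →ₗ[𝕜] F)) := hS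
  obtain ⟨B, hB⟩ := (Submodule.fg_iff_finiteDimensional _).2 hf
  have hfin : ((c.re '' (B : Set F)) ∪ (c.im '' (B : Set F))).Finite :=
    ((B.finite_toSet).image _).union ((B.finite_toSet).image _)
  have : FiniteDimensional ℝ (Submodule.span ℝ ((c.re '' (B : Set F)) ∪ (c.im '' (B : Set F)))) :=
    FiniteDimensional.span_of_finite ℝ hfin
  refine Submodule.finiteDimensional_of_le (S₂ := Submodule.span ℝ
    ((c.re '' (B : Set F)) ∪ (c.im '' (B : Set F)))) ?_
  set W := Submodule.span ℝ ((c.re '' (B : Set F)) ∪ (c.im '' (B : Set F))) with hW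
  have key : ∀ z ∈ LinearMap.range (S : F →ₗ[𝕜] F), c.re z ∈ W ∧ c.im z ∈ W := by
    intro z hz
    rw [← hB] at hz
    refine Submodule.span_induction (p := fun z _ => c.re z ∈ W ∧ c.im z ∈ W) ?_ ?_ ?_ ?_ hz
    · intro x hx
      exact ⟨Submodule.subset_span (Or.inl ⟨x, hx, rfl⟩), Submodule.subset_span (Or.inr ⟨x, hx, rfl⟩)⟩
    · have h1 := c.re_sub 0 0
      have h2 := c.im_sub 0 0
      rw [sub_self, sub_self] at h1 h2
      rw [h1, h2]
      exact ⟨W.zero_mem, W.zero_mem⟩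
    · intro x y _ _ hx hy
      rw [c.re_add, c.im_add]
      exact ⟨W.add_mem hx.1 hy.1, W.add_mem hx.2 hy.2⟩
    · intro a x _ hx
      rw [c.re_smul, c.im_smul]
      exact ⟨W.sub_mem (W.smul_mem _ hx.1) (W.smul_mem _ hx.2),
        W.add_mem (W.smul_mem _ hx.2) (W.smul_mem _ hx.1)⟩
  rintro _ ⟨u, rfl⟩
  exact (key _ ⟨c.inc u, rfl⟩).1

lemma norm_rp_sub_le (S : F →L[𝕜] F) (u : E) : ‖c.rp S u - u‖ ≤ ‖S (c.inc u) - c.inc u‖ := by
  have h1 : c.rp S u - u = c.re (S (c.inc u) - c.inc u) := by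
    rw [c.re_sub, c.re_inc, c.rp_apply]
  rw [h1]
  exact c.norm_re_le _

end Cx

/-- failure of the bounded approximation property for the approximable operators, from the
failure for the real space -/
theorem noBAP_of_cx [CompleteSpace F] {G : Type} [NormedAddCommGroup G] [NormedSpace 𝕜 G]
    [CompleteSpace G] (T₀ : F →L[𝕜] G) (hT₀ : T₀ ∈ (approxIdeal 𝕜).mem ⟨F⟩ ⟨G⟩)
    (co : E → ℕ → ℝ) (hco : ∀ (z : F) (i : ℕ), co (c.re z) i ≤ ‖T₀ z‖)
    (hno : ∀ C : ℝ, 0 ≤ C → ¬ ∀ K : Set E, IsCompact K → ∀ ε : ℝ, 0 < ε →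
      ∃ T : E →L[ℝ] E, FiniteDimensional ℝ (LinearMap.range (T : E →ₗ[ℝ] E)) ∧
        (∀ (u : E) (i : ℕ), co (T u) i ≤ C * ‖u‖) ∧ ∀ x ∈ K, ‖T x - x‖ ≤ ε) (lam : ℝ) :
    ¬ HasBAPFor (approxIdeal 𝕜) lam ⟨F⟩ := by
  intro H
  obtain ⟨ι, _, _, _, S, hSf, hSK, hlim⟩ := H ⟨G⟩ T₀ hT₀
  change limsup (fun α => ((‖T₀.comp (S α)‖ : ℝ) : EReal)) atTop ≤
    ((lam * ‖T₀‖ : ℝ) : EReal) at hlim
  set C : ℝ := |lam * ‖T₀‖| + 1 with hC
  have hC0 : 0 ≤ C := by positivity
  have hev : ∀ᶠ α in atTop, ((‖T₀.comp (S α)‖ : ℝ) : EReal) < ((C : ℝ) : EReal) := by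
    refine eventually_lt_of_limsup_lt (lt_of_le_of_lt hlim ?_)
    rw [EReal.coe_lt_coe_iff]
    have := le_abs_self (lam * ‖T₀‖)
    linarith
  refine hno C hC0 fun K hK ε hε => ?_
  have hunif := hSK _ (hK.image c.continuous_inc)
  rw [Metric.tendstoUniformlyOn_iff] at hunif
  obtain ⟨α, hα1, hα2⟩ := ((hunif ε hε).and hev).exists
  rw [EReal.coe_lt_coe_iff] at hα2
  refine ⟨c.rp (S α), c.rp_finRank _ (hSf α), fun u i => ?_, fun u hu => ?_⟩
  · refine (hco (S α (c.inc u)) i).trans ?_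
    refine ((T₀.comp (S α)).le_opNorm (c.inc u)).trans ?_
    exact mul_le_mul hα2.le (c.norm_inc_le u) (norm_nonneg _) hC0
  · have h1 := hα1 (c.inc u) ⟨u, hu, rfl⟩
    rw [dist_eq_norm, norm_sub_rev] at h1
    exact (c.norm_rp_sub_le _ u).trans h1.le

end Pool.Agent.Y284.ID
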