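import Pool.Agent.Y284.ID.Cplx

set_option autoImplicit false

/-! # Banach operator ideals: short definitions for the final statement -/

open Filter Topology

namespace Pool.Agent.Y284.IDB

/-- A Banach space over `𝕜`. -/
structure Ban (𝕜 : Type) [RCLike 𝕜] where
  /-- the underlying type -/
  E : Type
  [grp : NormedAddCommGroup E]
  [spc : NormedSpace 𝕜 E]
  [cpl : CompleteSpace E]

attribute [instance] Ban.grp Ban.spc Ban.cpl

variable {𝕜 : Type} [RCLike 𝕜]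

/-- The bounded linear operators `X → Y`. -/
def Op (X Y : Ban 𝕜) : Type := X.E →L[𝕜] Y.E

/-- the operator norm (Mathlib's instance) -/
noncomputable instance instGrp (X Y : Ban 𝕜) : NormedAddCommGroup (Op X Y) :=
  @ContinuousLinearMap.toNormedAddCommGroup 𝕜 𝕜 X.E Y.E _ _ _ _ _ _ _ _

/-- the scalar multiplication (Mathlib's instance) -/
noncomputable instance instSpc (X Y : Ban 𝕜) : NormedSpace 𝕜 (Op X Y) :=
  @ContinuousLinearMap.toNormedSpace 𝕜 𝕜 X.E Y.E _ _ _ _ _ _ _ _ 𝕜 _ _ _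

/-- the underlying linear map -/
def Op.lin {X Y : Ban 𝕜} (T : Op X Y) : X.E →ₗ[𝕜] Y.E := ContinuousLinearMap.toLinearMap T

/-- the value of `T` at `x` -/
def Op.app {X Y : Ban 𝕜} (T : Op X Y) (x : X.E) : Y.E := T.lin x

/-- the composition `S ∘ T` -/
def Op.comp {X Y Z : Ban 𝕜} (S : Op Y Z) (T : Op X Y) : Op X Z := ContinuousLinearMap.comp S T

/-- the scalar field as a Banach space -/
def scal (𝕜 : Type) [RCLike 𝕜] : Ban 𝕜 := ⟨𝕜⟩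

/-- the rank-one operator `x ↦ f(x) y` -/
noncomputable def rankOne {X Y : Ban 𝕜} (f : Op X (scal 𝕜)) (y : Y.E) : Op X Y :=
  ContinuousLinearMap.smulRight (show X.E →L[𝕜] 𝕜 from f) y

/-- `T` has finite rank. -/
def FinRank {X Y : Ban 𝕜} (T : Op X Y) : Prop := FiniteDimensional 𝕜 T.lin.range

/-- To each pair of Banach spaces `X, Y` a set `mem X Y` of bounded operators and
a function `nrm X Y` (only its values on `mem X Y` matter). -/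
structure IdealData (𝕜 : Type) [RCLike 𝕜] where
  /-- the operators in the ideal -/
  mem : ∀ X Y : Ban 𝕜, Set (Op X Y)
  /-- the ideal norm -/
  nrm : ∀ X Y : Ban 𝕜, Op X Y → ℝ

/-- `mem X Y` is a linear subspace containing the finite-rank operators. -/
structure IsSubspace (A : IdealData 𝕜) (X Y : Ban 𝕜) : Prop where
  finRank : ∀ T : Op X Y, FinRank T → T ∈ A.mem X Y
  add : ∀ S ∈ A.mem X Y, ∀ T ∈ A.mem X Y, S + T ∈ A.mem X Y
  smul : ∀ c : 𝕜, ∀ T ∈ A.mem X Y, c • T ∈ A.mem X Y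

/-- `nrm X Y` is a norm on `mem X Y`. -/
structure IsNorm (A : IdealData 𝕜) (X Y : Ban 𝕜) : Prop where
  nonneg : ∀ T ∈ A.mem X Y, 0 ≤ A.nrm X Y T
  eq_zero : ∀ T ∈ A.mem X Y, A.nrm X Y T = 0 → T = 0
  smul : ∀ c : 𝕜, ∀ T ∈ A.mem X Y, A.nrm X Y (c • T) = ‖c‖ * A.nrm X Y T
  add_le : ∀ S ∈ A.mem X Y, ∀ T ∈ A.mem X Y, A.nrm X Y (S + T) ≤ A.nrm X Y S + A.nrm X Y T

/-- `mem X Y` is complete for `nrm X Y`. -/
def IsComplete (A : IdealData 𝕜) (X Y : Ban 𝕜) : Prop :=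
  ∀ T : ℕ → Op X Y, (∀ n, T n ∈ A.mem X Y) →
    (∀ ε : ℝ, 0 < ε → ∃ N : ℕ, ∀ m ≥ N, ∀ n ≥ N, A.nrm X Y (T m - T n) < ε) →
    ∃ S ∈ A.mem X Y, Tendsto (fun n => A.nrm X Y (T n - S)) atTop (𝓝 0)

/-- The ideal property: `R T S` belongs to the ideal, with norm at most `‖R‖ ‖T‖_A ‖S‖`. -/
def IdealProp (A : IdealData 𝕜) (W X Y Z : Ban 𝕜) : Prop :=
  ∀ (S : Op W X) (R : Op Y Z), ∀ T ∈ A.mem X Y,
    R.comp (T.comp S) ∈ A.mem W Z ∧
      A.nrm W Z (R.comp (T.comp S)) ≤ ‖R‖ * A.nrm X Y T * ‖S‖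

/-- `A` is a Banach operator ideal. -/
structure IsBanachIdeal (A : IdealData 𝕜) : Prop where
  subspace : ∀ X Y : Ban 𝕜, IsSubspace A X Y
  norm : ∀ X Y : Ban 𝕜, IsNorm A X Y
  complete : ∀ X Y : Ban 𝕜, IsComplete A X Y
  rankOne : ∀ (X Y : Ban 𝕜) (f : Op X (scal 𝕜)) (y : Y.E),
    A.nrm X Y (rankOne f y) = ‖f‖ * ‖y‖
  ideal : ∀ W X Y Z : Ban 𝕜, IdealProp A W X Y Z

/-- `limsup r_α ≤ c` along the net `r`, in the extended reals. -/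
def LimsupLE {ι : Type} [Preorder ι] (r : ι → ℝ) (c : ℝ) : Prop :=
  limsup (fun α => (r α : EReal)) atTop ≤ (c : EReal)

/-- `X` has the `lam`-BAP for the ideal `A`. -/
def HasBAPFor (A : IdealData 𝕜) (lam : ℝ) (X : Ban 𝕜) : Prop :=
  ∀ (Y : Ban 𝕜), ∀ T ∈ A.mem X Y,
    ∃ (ι : Type) (_ : Preorder ι) (_ : IsDirectedOrder ι) (_ : Nonempty ι) (S : ι → Op X X),
      (∀ α, FinRank (S α)) ∧
      (∀ K : Set X.E, IsCompact K →
        TendstoUniformlyOn (fun α x => (S α).app x) (fun x => x) atTop K) ∧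
      LimsupLE (fun α => A.nrm X Y (T.comp (S α))) (lam * A.nrm X Y T)

/-- `X` satisfies condition `(P_lam)` for the ideal `A`. -/
def CondP (A : IdealData 𝕜) (lam : ℝ) (X : Ban 𝕜) : Prop :=
  ∀ (Y : Ban 𝕜), ∀ T ∈ A.mem X Y,
    ∃ (ι : Type) (_ : Preorder ι) (_ : IsDirectedOrder ι) (_ : Nonempty ι) (S : ι → Op X Y),
      (∀ α, FinRank (S α)) ∧
      (∀ x : X.E, Tendsto (fun α => (S α).app x) atTop (𝓝 (T.app x))) ∧
      LimsupLE (fun α => A.nrm X Y (S α)) (lam * A.nrm X Y T)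

/-- `X` has the approximation property. -/
def HasAP (X : Ban 𝕜) : Prop :=
  ∀ K : Set X.E, IsCompact K → ∀ ε : ℝ, 0 < ε →
    ∃ T : Op X X, FinRank T ∧ ∀ x ∈ K, ‖T.app x - x‖ ≤ ε

/-! ## The example -/

/-- the ideal of approximable operators -/
noncomputable def approx (𝕜 : Type) [RCLike 𝕜] : IdealData 𝕜 where
  mem X Y := closure {T : Op X Y | FinRank T}
  nrm _ _ T := ‖T‖

theorem isBanachIdeal_approx (𝕜 : Type) [RCLike 𝕜] : IsBanachIdeal (approx 𝕜) := by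
  have h := ID.isBanachIdeal_approx 𝕜
  refine ⟨fun X Y => ⟨?_, ?_, ?_⟩, fun X Y => ⟨?_, ?_, ?_, ?_⟩, fun X Y => ?_, fun X Y => ?_,
    fun W X Y Z => ?_⟩
  · intro T hT
    exact subset_closure hT
  · intro S hS T hT
    exact ((ID.approxIdeal 𝕜).mem ⟨X.E⟩ ⟨Y.E⟩).add_mem hS hT
  · intro c T hT
    exact ((ID.approxIdeal 𝕜).mem ⟨X.E⟩ ⟨Y.E⟩).smul_mem c hT
  · intro T _
    exact norm_nonneg T
  · intro T _ h
    exact norm_eq_zero.1 h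
  · intro c T _
    exact norm_smul c T
  · intro S _ T _
    exact norm_add_le S T
  · exact h.complete ⟨X.E⟩ ⟨Y.E⟩
  · intro f y
    exact h.rankOne ⟨X.E⟩ ⟨Y.E⟩ f y
  · intro S R T hT
    exact h.comp ⟨W.E⟩ ⟨X.E⟩ ⟨Y.E⟩ ⟨Z.E⟩ S T R hT

theorem condP_approx (X : Ban 𝕜) : CondP (approx 𝕜) 1 X := by
  intro Y T hT
  obtain ⟨ι, i1, i2, i3, S, h1, h2, h3⟩ := ID.condP_approx (𝕜 := 𝕜) ⟨X.E⟩ ⟨Y.E⟩ T hT
  exact ⟨ι, i1, i2, i3, S, h1, h2, h3⟩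

theorem main (𝕜 : Type) [RCLike 𝕜] :
    ∃ X : Ban 𝕜, HasAP X ∧ CondP (approx 𝕜) 1 X ∧ ∀ lam : ℝ, ¬ HasBAPFor (approx 𝕜) lam X := by
  obtain ⟨s⟩ := Pool.Agent.H812R2.AP.exists_sys
  refine ⟨⟨ID.SK 𝕜 s⟩, ID.hasAP_SK s, condP_approx _, fun lam H => ID.noBAP_SK (𝕜 := 𝕜) s lam ?_⟩
  intro Y T hT
  obtain ⟨ι, i1, i2, i3, S, h1, h2, h3⟩ := H ⟨Y.E⟩ T hT
  exact ⟨ι, i1, i2, i3, S, h1, h2, h3⟩

end Pool.Agent.Y284.IDB
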