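import Pool.Agent.H812R2.JS.NoBAP

set_option autoImplicit false

/-! # A weighted failure of the bounded approximation property

The space `SS s` is a subspace of `c₀` with the approximation property and without the bounded
approximation property.  Here the failure is strengthened: it already fails for the composition
with one diagonal operator whose weights tend to zero. -/

open Filter Topology Finset
open scoped ENNReal

noncomputable section

namespace Pool.Agent.Y284.ID

open Pool.Agent.BAPp Pool.Agent.H812R2.AP Pool.Agent.H812R2.JS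

variable (s : Sys)

/-- the weights, by block and level -/
def aw (lam k : ℕ) : ℝ := 1 / (Real.sqrt ((lam : ℝ) + 1) * ((k : ℝ) + 1))

lemma aw_pos (lam k : ℕ) : 0 < aw lam k := by
  unfold aw
  have : (0 : ℝ) < Real.sqrt ((lam : ℝ) + 1) := Real.sqrt_pos.2 (by positivity)
  positivity

lemma inv_aw (lam k : ℕ) : 1 / aw lam k = Real.sqrt ((lam : ℝ) + 1) * ((k : ℝ) + 1) := by
  unfold aw
  rw [one_div_one_div]

/-- the diagonal weights -/
def wt (i : ℕ) : ℝ :=
  match cd.symm i with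
  | (lam, none, x) => if x.2 < 2 ^ (x.1 + 2) then aw lam x.1 else 0
  | (_, some _, _) => 0

lemma wt_none (lam : ℕ) (x : ℕ × ℕ) : wt (cd (lam, none, x)) =
    if x.2 < 2 ^ (x.1 + 2) then aw lam x.1 else 0 := by
  unfold wt
  rw [Equiv.symm_apply_apply]

lemma wt_some (lam n : ℕ) (x : ℕ × ℕ) : wt (cd (lam, some n, x)) = 0 := by
  unfold wt
  rw [Equiv.symm_apply_apply]

lemma aw_le_one (lam k : ℕ) : aw lam k ≤ 1 := by
  unfold aw
  rw [div_le_one (by have := aw_pos lam k; unfold aw at this; exact one_div_pos.1 this)]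
  have h1 : (1 : ℝ) ≤ Real.sqrt ((lam : ℝ) + 1) := by
    rw [Real.one_le_sqrt]
    have : (0 : ℝ) ≤ lam := Nat.cast_nonneg _
    linarith
  have h2 : (1 : ℝ) ≤ (k : ℝ) + 1 := by
    have : (0 : ℝ) ≤ k := Nat.cast_nonneg _
    linarith
  calc (1 : ℝ) = 1 * 1 := (one_mul 1).symm
    _ ≤ _ := mul_le_mul h1 h2 zero_le_one (zero_le_one.trans h1)

lemma wt_nonneg (i : ℕ) : 0 ≤ wt i := by
  obtain ⟨p, rfl⟩ := cd.surjective i
  obtain ⟨lam, o, x⟩ := p
  cases o with
  | none =>
    rw [wt_none]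
    split_ifs
    · exact (aw_pos _ _).le
    · exact le_rfl
  | some n => rw [wt_some]

lemma wt_le_one (i : ℕ) : wt i ≤ 1 := by
  obtain ⟨p, rfl⟩ := cd.surjective i
  obtain ⟨lam, o, x⟩ := p
  cases o with
  | none =>
    rw [wt_none]
    split_ifs
    · exact aw_le_one _ _
    · exact zero_le_one
  | some n => rw [wt_some]; exact zero_le_one

lemma tendsto_inv_sqrt : Tendsto (fun n : ℕ => 1 / Real.sqrt ((n : ℝ) + 1)) atTop (𝓝 0) := by
  have h1 : Tendsto (fun n : ℕ => (n : ℝ) + 1) atTop atTop :=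
    tendsto_natCast_atTop_atTop.atTop_add tendsto_const_nhds
  have h2 : Tendsto (fun n : ℕ => Real.sqrt ((n : ℝ) + 1)) atTop atTop :=
    Real.tendsto_sqrt_atTop.comp h1
  simp only [one_div]
  exact h2.inv_tendsto_atTop

/-- the weights tend to zero: only finitely many exceed a given positive bound -/
lemma wt_finite (ε : ℝ) (hε : 0 < ε) : {i : ℕ | ε ≤ wt i}.Finite := by
  obtain ⟨N, hN⟩ := Metric.tendsto_atTop.1 tendsto_inv_sqrt ε hε
  obtain ⟨N', hN'⟩ := exists_nat_gt (1 / ε)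
  have h1 : ∀ lam k : ℕ, ε ≤ aw lam k → lam < N ∧ k < N' := by
    intro lam k h
    have hsq : (0 : ℝ) < Real.sqrt ((lam : ℝ) + 1) := Real.sqrt_pos.2 (by positivity)
    have hsq1 : (1 : ℝ) ≤ Real.sqrt ((lam : ℝ) + 1) := by
      rw [Real.one_le_sqrt]
      have : (0 : ℝ) ≤ lam := Nat.cast_nonneg _
      linarith
    have hk1 : (1 : ℝ) ≤ (k : ℝ) + 1 := by
      have : (0 : ℝ) ≤ k := Nat.cast_nonneg _
      linarith
    constructor
    · by_contra hcon
      have h2 := hN lam (not_lt.1 hcon)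
      rw [Real.dist_eq, sub_zero, abs_of_pos (by positivity)] at h2
      have h3 : aw lam k ≤ 1 / Real.sqrt ((lam : ℝ) + 1) := by
        unfold aw
        apply one_div_le_one_div_of_le hsq
        calc Real.sqrt ((lam : ℝ) + 1) = Real.sqrt ((lam : ℝ) + 1) * 1 := (mul_one _).symm
          _ ≤ _ := mul_le_mul_of_nonneg_left hk1 hsq.le
      linarith
    · by_contra hcon
      have h2 : (N' : ℝ) ≤ k := by exact_mod_cast not_lt.1 hcon
      have h3 : aw lam k ≤ 1 / ((k : ℝ) + 1) := by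
        unfold aw
        apply one_div_le_one_div_of_le (by positivity)
        calc (k : ℝ) + 1 = 1 * ((k : ℝ) + 1) := (one_mul _).symm
          _ ≤ _ := mul_le_mul_of_nonneg_right hsq1 (by positivity)
      have h4 : 1 / ((k : ℝ) + 1) < ε := by
        rw [div_lt_iff₀ (by positivity)]
        have h5 : 1 / ε < (k : ℝ) + 1 := by linarith
        rw [div_lt_iff₀ hε] at h5
        linarith
      linarith
  refine (((Finset.range N) ×ˢ (({none} : Finset (Option ℕ)) ×ˢ
    ((Finset.range N') ×ˢ (Finset.range (2 ^ (N' + 2)))))).image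
    (fun p : Ix => cd p)).finite_toSet.subset ?_
  intro i hi
  rw [Set.mem_ofPred_eq] at hi
  obtain ⟨p, rfl⟩ := cd.surjective i
  obtain ⟨lam, o, x⟩ := p
  cases o with
  | some n => rw [wt_some] at hi; linarith
  | none =>
    rw [wt_none] at hi
    by_cases hx : x.2 < 2 ^ (x.1 + 2)
    · rw [if_pos hx] at hi
      obtain ⟨h2, h3⟩ := h1 _ _ hi
      refine Finset.mem_coe.2 (Finset.mem_image.2 ⟨_, ?_, rfl⟩)
      rw [mem_product, mem_product, mem_product]
      refine ⟨mem_range.2 h2, Finset.mem_singleton_self _, mem_range.2 h3, mem_range.2 ?_⟩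
      exact lt_of_lt_of_le hx (Nat.pow_le_pow_right (by norm_num) (by omega))
    · rw [if_neg hx] at hi
      linarith

/-- evaluation of an operator whose composition with the diagonal operator is bounded -/
lemma abs_Y_T_le (lam : ℕ) (T : SS s →L[ℝ] SS s) {C : ℝ}
    (hT : ∀ (z : SS s) (i : ℕ), wt i * |(T z : LL) i| ≤ C * ‖z‖) (z : SS s) (x : ℕ × ℕ)
    (hx : x.2 < 2 ^ (x.1 + 2)) :
    |Y lam (T z : LL) x| ≤ C * ‖z‖ * (1 / aw lam x.1) / w lam x.1 := by
  rw [Y_apply, abs_div, abs_of_pos (w_pos _ _)]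
  refine div_le_div_of_nonneg_right ?_ (w_pos _ _).le
  have h1 := hT z (cd (lam, none, x))
  rw [wt_none, if_pos hx] at h1
  rw [mul_one_div, le_div_iff₀ (aw_pos _ _)]
  linarith

/-- the difference with the identity, near vectors -/
lemma near' (lam m m0 : ℕ) (hm : m0 ≤ m) (T : SS s →L[ℝ] SS s) {C ε M : ℝ} (hC0 : 0 ≤ C)
    (hT : ∀ (z : SS s) (i : ℕ), wt i * |(T z : LL) i| ≤ C * ‖z‖)
    (f : En s m) (f0 : En s m0) (hf : (f : Fn) = f0) (hM : ∀ x, |(f : Fn) x| ≤ M)
    (hε : ‖T (J s lam m0 f0) - J s lam m0 f0‖ ≤ ε) (x : ℕ × ℕ) (hx : x.2 < 2 ^ (x.1 + 2)) :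
    |(Th s lam m T - (En s m).subtype) f x| ≤ ε + C * M * (1 / aw lam x.1) / w lam x.1 := by
  have e1 : (Th s lam m T - (En s m).subtype) f x =
      Y lam ((T (J s lam m0 f0) - J s lam m0 f0 : SS s) : LL) x +
      Y lam ((T (J s lam m f - J s lam m0 f0) : SS s) : LL) x := by
    rw [LinearMap.sub_apply, Pi.sub_apply, Th_apply, Submodule.subtype_apply, map_sub,
      Submodule.coe_sub, Submodule.coe_sub, map_sub, map_sub, Pi.sub_apply, Pi.sub_apply, Y_J, ← hf]
    ring
  rw [e1]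
  refine (abs_add_le _ _).trans (add_le_add ?_ ?_)
  · refine (abs_Y_le s lam _ x).trans ((div_le_self (norm_nonneg _) (one_le_w _ _)).trans hε)
  · refine (abs_Y_T_le s lam T hT _ x hx).trans (div_le_div_of_nonneg_right ?_ (w_pos _ _).le)
    refine mul_le_mul_of_nonneg_right ?_ (one_div_pos.2 (aw_pos _ _)).le
    exact mul_le_mul_of_nonneg_left (norm_J_sub_le s lam m m0 hm f f0 hf hM) hC0

/-- the difference with the identity, far vectors -/
lemma far'' (lam m : ℕ) (T : SS s →L[ℝ] SS s) {C M : ℝ} (hC0 : 0 ≤ C)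
    (hT : ∀ (z : SS s) (i : ℕ), wt i * |(T z : LL) i| ≤ C * ‖z‖)
    (f : En s m) (hM : ∀ x, w lam x.1 * |(f : Fn) x| ≤ M) (x : ℕ × ℕ)
    (hx : x.2 < 2 ^ (x.1 + 2)) :
    |(Th s lam m T - (En s m).subtype) f x| ≤ C * M * (1 / aw lam x.1) + M := by
  have hM0 : 0 ≤ M := (mul_nonneg (w_pos _ _).le (abs_nonneg _)).trans (hM (0, 0))
  have h1 : |Th s lam m T f x| ≤ C * M * (1 / aw lam x.1) := by
    rw [Th_apply]
    refine (abs_Y_T_le s lam T hT _ x hx).trans ?_
    have h3 : C * ‖J s lam m f‖ * (1 / aw lam x.1) ≤ C * M * (1 / aw lam x.1) :=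
      mul_le_mul_of_nonneg_right (mul_le_mul_of_nonneg_left (norm_J_le s lam m f hM) hC0)
        (one_div_pos.2 (aw_pos _ _)).le
    refine (div_le_self ?_ (one_le_w _ _)).trans h3
    exact mul_nonneg (mul_nonneg hC0 (norm_nonneg _)) (one_div_pos.2 (aw_pos _ _)).le
  have h2 : |(f : Fn) x| ≤ M :=
    (le_mul_of_one_le_left (abs_nonneg _) (one_le_w _ _)).trans (hM x)
  rw [LinearMap.sub_apply, Pi.sub_apply, Submodule.subtype_apply]
  refine (abs_sub _ _).trans ?_
  linarith

/-- the weighted constants -/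
def dd (k : ℕ) : ℝ := Sys.cc k * ((k : ℝ) + 1) ^ 2

lemma dd_nonneg (k : ℕ) : 0 ≤ dd k := mul_nonneg (cc_nonneg k) (by positivity)

lemma cc_le_dd (k : ℕ) : Sys.cc k ≤ dd k := by
  unfold dd
  have : (0 : ℝ) ≤ k := Nat.cast_nonneg _
  have h1 : (1 : ℝ) ≤ ((k : ℝ) + 1) ^ 2 := by nlinarith
  exact le_mul_of_one_le_right (cc_nonneg k) h1

lemma summable_dd : Summable dd := by
  have h := Sys.tendsto_cc
  obtain ⟨N, hN⟩ := Metric.tendsto_atTop.1 h 1 one_pos
  have h1 : ∀ k ≥ N, Sys.cc k ≤ (3 / 4 : ℝ) ^ k := by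
    intro k hk
    have h2 := hN k hk
    rw [Real.dist_eq, sub_zero, abs_of_nonneg (mul_nonneg (by positivity) (cc_nonneg k))] at h2
    have h3 : (3 / 4 : ℝ) ^ k * ((4 / 3 : ℝ) ^ k * Sys.cc k) ≤ (3 / 4 : ℝ) ^ k * 1 :=
      mul_le_mul_of_nonneg_left h2.le (by positivity)
    rw [← mul_assoc, ← mul_pow] at h3
    norm_num at h3
    exact h3
  have hs : Summable fun k : ℕ => (3 / 4 : ℝ) ^ k * ((k : ℝ) + 1) ^ 2 := by
    have h2 : Summable fun k : ℕ => ((k : ℝ)) ^ 2 * (3 / 4 : ℝ) ^ k :=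
      summable_pow_mul_geometric_of_norm_lt_one 2 (by norm_num)
    have h3 : Summable fun k : ℕ => (((k + 1 : ℕ) : ℝ)) ^ 2 * (3 / 4 : ℝ) ^ (k + 1) :=
      (summable_nat_add_iff 1).2 h2
    refine (h3.mul_left (4 / 3)).congr fun k => ?_
    push_cast
    rw [pow_succ]
    ring
  refine (summable_nat_add_iff N).1 ?_
  refine Summable.of_nonneg_of_le (fun k => dd_nonneg _) (fun k => ?_)
    ((summable_nat_add_iff N).2 hs)
  unfold dd
  exact mul_le_mul_of_nonneg_right (h1 (k + N) (by omega)) (by positivity)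

lemma sqrt_le_self (lam : ℕ) : Real.sqrt ((lam : ℝ) + 1) ≤ (lam : ℝ) + 1 := by
  rw [Real.sqrt_le_left (by positivity)]
  have : (0 : ℝ) ≤ lam := Nat.cast_nonneg _
  nlinarith

/-- the space fails the bounded approximation property even after composing with the diagonal
operator -/
theorem noBAP' (C : ℝ) (hC0 : 0 ≤ C) : ¬ ∀ K : Set (SS s), IsCompact K → ∀ ε : ℝ, 0 < ε →
        ∃ T : SS s →L[ℝ] SS s, FiniteDimensional ℝ (LinearMap.range (T : SS s →ₗ[ℝ] SS s)) ∧
          (∀ (z : SS s) (i : ℕ), wt i * |(T z : LL) i| ≤ C * ‖z‖) ∧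
          ∀ x ∈ K, ‖T x - x‖ ≤ ε := by
  intro H
  set Sg : ℝ := ∑' k, dd k with hSg
  have hsum := summable_dd
  have hSg0 : 0 ≤ Sg := tsum_nonneg dd_nonneg
  -- choice of the block
  have hA : ∀ᶠ lam : ℕ in atTop, C * (1 + Sg) * (1 / Real.sqrt ((lam : ℝ) + 1)) ≤ 1 / 8 := by
    have h1 : Tendsto (fun lam : ℕ => C * (1 + Sg) * (1 / Real.sqrt ((lam : ℝ) + 1))) atTop
        (𝓝 (C * (1 + Sg) * 0)) := tendsto_inv_sqrt.const_mul _
    rw [mul_zero] at h1
    exact (h1.eventually (ge_mem_nhds (by norm_num : (0 : ℝ) < 1 / 8)))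
  have hB : ∀ᶠ lam : ℕ in atTop, (C + 1) * (∑' k, dd (k + (lam + 1))) ≤ 1 / 8 := by
    have h1 : Tendsto (fun lam : ℕ => (C + 1) * (∑' k, dd (k + (lam + 1)))) atTop (𝓝 ((C + 1) * 0)) :=
      ((tendsto_sum_nat_add dd).comp (tendsto_add_atTop_nat 1)).const_mul _
    rw [mul_zero] at h1
    exact (h1.eventually (ge_mem_nhds (by norm_num : (0 : ℝ) < 1 / 8)))
  obtain ⟨lam, hlamA, hlamB⟩ := (hA.and hB).exists
  have hsq : (0 : ℝ) < Real.sqrt ((lam : ℝ) + 1) := Real.sqrt_pos.2 (by positivity)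
  have hsqsq : Real.sqrt ((lam : ℝ) + 1) * Real.sqrt ((lam : ℝ) + 1) = (lam : ℝ) + 1 :=
    Real.mul_self_sqrt (by positivity)
  have hdiv : Real.sqrt ((lam : ℝ) + 1) / ((lam : ℝ) + 1) = 1 / Real.sqrt ((lam : ℝ) + 1) := by
    rw [div_eq_div_iff (by positivity) hsq.ne', hsqsq, one_mul]
  set ε : ℝ := 1 / (8 * ((lam : ℝ) + 3)) with hε
  have hε0 : 0 < ε := by positivity
  -- the compact set
  set K : Set (SS s) := insert (J s lam (lam + 2) (eE s (lam + 2) 0 0))
    ((fun p : ℕ × ℕ => J s lam (lam + 2) (ph s (lam + 2) p.1 p.2)) ''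
      ((Set.Iio (lam + 2)) ×ˢ (Set.Iio (2 ^ (lam + 3))))) with hK
  have hKf : K.Finite := (((Set.finite_Iio _).prod (Set.finite_Iio _)).image _).insert _
  obtain ⟨T, hTf, hTC, hTK⟩ := H K hKf.isCompact ε hε0
  obtain ⟨K0, hK0⟩ := bt_small s lam T hTf (1 / 4) (by norm_num)
  set m := max K0 (lam + 2) with hm
  have hm1 : lam + 2 ≤ m := le_max_right _ _
  have hsmall := hK0 m (le_max_left _ _)
  set Θ := Th s lam m T - (En s m).subtype with hΘ
  have hgood : ∀ f, Good s (Θ f) := fun f => good_sub s (good_Th s lam m T f) (good_En s f.2)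
  -- bounds
  set b : ℕ → ℝ := fun k => if k ≤ lam then ε + C * dd k * (1 / Real.sqrt ((lam : ℝ) + 1)) else
    (if k = lam + 1 then ε else 0) + (C + 1) * dd k with hb
  have hb0 : ∀ g < 2 ^ 2, |Θ (eE s m 0 0) (0, g)| ≤ ε + C * 1 * (1 / Real.sqrt ((lam : ℝ) + 1)) := by
    intro g hg
    have h1 := near' s lam m (lam + 2) hm1 T (M := 1) hC0 hTC (eE s m 0 0) (eE s (lam + 2) 0 0)
      (by rw [eE_coe s (by omega) (by norm_num), eE_coe s (by omega) (by norm_num)])
      (fun x => by rw [eE_coe s (by omega) (by norm_num)]; exact abs_ee_le s _ _ _)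
      (hTK _ (Set.mem_insert _ _)) (0, g) (by simpa using hg)
    have h2 : w lam 0 = (lam : ℝ) + 1 := by unfold w; rw [if_pos (Nat.zero_le _)]
    dsimp only at h1
    rw [h2, inv_aw, Nat.cast_zero, zero_add, mul_one (Real.sqrt _), mul_div_assoc, hdiv] at h1
    exact h1
  have hbk : ∀ k < m, ∀ g < 2 ^ (k + 2), |Θ (ph s m k g) (k, g)| ≤ b k := by
    intro k hk g hg
    by_cases h1 : k ≤ lam + 1
    · have h2 := near' s lam m (lam + 2) hm1 T (M := Sys.cc k) hC0 hTC (ph s m k g)
        (ph s (lam + 2) k g)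
        (by funext x; rw [ph_apply s (by omega), ph_apply s (by omega)])
        (fun x => abs_ph_le s (by omega) hg x)
        (hTK _ (Set.mem_insert_of_mem _ ⟨(k, g), ⟨by simp only [Set.mem_Iio]; omega, by
          simp only [Set.mem_Iio]
          exact lt_of_lt_of_le hg (Nat.pow_le_pow_right (by norm_num) (by omega))⟩, rfl⟩)) (k, g) hg
      refine h2.trans ?_
      rw [hb]
      dsimp only
      rw [inv_aw]
      by_cases h3 : k ≤ lam
      · rw [if_pos h3]
        have h4 : w lam k = (lam : ℝ) + 1 := by unfold w; rw [if_pos h3]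
        rw [h4]
        have h5 : C * Sys.cc k * (Real.sqrt ((lam : ℝ) + 1) * ((k : ℝ) + 1)) / ((lam : ℝ) + 1) =
            C * (Sys.cc k * ((k : ℝ) + 1)) * (1 / Real.sqrt ((lam : ℝ) + 1)) := by
          rw [← hdiv]
          ring
        rw [h5]
        have h6 : Sys.cc k * ((k : ℝ) + 1) ≤ dd k := by
          unfold dd
          refine mul_le_mul_of_nonneg_left ?_ (cc_nonneg k)
          have : (0 : ℝ) ≤ k := Nat.cast_nonneg _
          nlinarith
        have h7 : C * (Sys.cc k * ((k : ℝ) + 1)) * (1 / Real.sqrt ((lam : ℝ) + 1)) ≤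
            C * dd k * (1 / Real.sqrt ((lam : ℝ) + 1)) :=
          mul_le_mul_of_nonneg_right (mul_le_mul_of_nonneg_left h6 hC0) (by positivity)
        linarith
      · rw [if_neg h3, if_pos (by omega)]
        have h4 : w lam k = 1 := by unfold w; rw [if_neg h3]
        rw [h4, div_one]
        have h5 : Real.sqrt ((lam : ℝ) + 1) ≤ (k : ℝ) + 1 := by
          have h6 := sqrt_le_self lam
          have h7 : (lam : ℝ) ≤ k := by exact_mod_cast (by omega : lam ≤ k)
          linarith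
        have h6 : C * Sys.cc k * (Real.sqrt ((lam : ℝ) + 1) * ((k : ℝ) + 1)) ≤ C * dd k := by
          unfold dd
          rw [mul_assoc]
          refine mul_le_mul_of_nonneg_left ?_ hC0
          refine mul_le_mul_of_nonneg_left ?_ (cc_nonneg k)
          rw [sq]
          exact mul_le_mul_of_nonneg_right h5 (by positivity)
        have h8 := dd_nonneg k
        linarith
    · have h2 := far'' s lam m T (M := Sys.cc k) hC0 hTC (ph s m k g) (fun x => by
        by_cases hx : x.1 ≤ lam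
        · rw [ph_zero s (by omega) (by omega), abs_zero, mul_zero]
          exact cc_nonneg k
        · have h4 : w lam x.1 = 1 := by unfold w; rw [if_neg hx]
          rw [h4, one_mul]
          exact abs_ph_le s (by omega) hg x) (k, g) hg
      refine h2.trans ?_
      rw [hb]
      dsimp only
      rw [if_neg (by omega), if_neg (by omega), zero_add, inv_aw]
      have h5 : Real.sqrt ((lam : ℝ) + 1) ≤ (k : ℝ) + 1 := by
        have h6 := sqrt_le_self lam
        have h7 : (lam : ℝ) ≤ k := by exact_mod_cast (by omega : lam ≤ k)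
        linarith
      have h6 : C * Sys.cc k * (Real.sqrt ((lam : ℝ) + 1) * ((k : ℝ) + 1)) ≤ C * dd k := by
        unfold dd
        rw [mul_assoc]
        refine mul_le_mul_of_nonneg_left ?_ hC0
        refine mul_le_mul_of_nonneg_left ?_ (cc_nonneg k)
        rw [sq]
        exact mul_le_mul_of_nonneg_right h5 (by positivity)
      have h8 := cc_le_dd k
      linarith
  have hfin := abs_bt_le s Θ hgood b hb0 hbk m le_rfl
  have hbt : bt s m m Θ = bt s m m (Th s lam m T) - 1 := by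
    rw [hΘ, bt_sub, bt_id s le_rfl]
  -- sum of the bounds
  have hsumb : ∑ k ∈ range m, b k ≤ (lam + 2) * ε + C * Sg * (1 / Real.sqrt ((lam : ℝ) + 1)) +
      (C + 1) * (∑' k, dd (k + (lam + 1))) := by
    obtain ⟨r, hr⟩ := Nat.exists_eq_add_of_le (show lam + 1 ≤ m by omega)
    rw [hr, Finset.sum_range_add]
    have e1 : ∑ k ∈ range (lam + 1), b k ≤
        (lam + 1) * ε + C * Sg * (1 / Real.sqrt ((lam : ℝ) + 1)) := by
      have e2 : ∑ k ∈ range (lam + 1), b k =
          ∑ k ∈ range (lam + 1), (ε + C * dd k * (1 / Real.sqrt ((lam : ℝ) + 1))) := by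
        refine Finset.sum_congr rfl fun k hk => ?_
        rw [hb]
        dsimp only
        rw [if_pos (by have := mem_range.1 hk; omega)]
      rw [e2, Finset.sum_add_distrib, Finset.sum_const, card_range, nsmul_eq_mul, ← Finset.sum_mul,
        ← Finset.mul_sum]
      push_cast
      gcongr
      exact hsum.sum_le_tsum _ (fun k _ => dd_nonneg k)
    have e3 : ∑ k ∈ range r, b (lam + 1 + k) ≤ ε + (C + 1) * (∑' k, dd (k + (lam + 1))) := by
      have e4 : ∑ k ∈ range r, b (lam + 1 + k) =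
          ∑ k ∈ range r, ((if k = 0 then ε else 0) + (C + 1) * dd (k + (lam + 1))) := by
        refine Finset.sum_congr rfl fun k hk => ?_
        rw [hb]
        dsimp only
        rw [if_neg (by omega), add_comm (lam + 1) k]
        by_cases h0 : k = 0
        · rw [if_pos h0, if_pos (by omega)]
        · rw [if_neg h0, if_neg (by omega)]
      rw [e4, Finset.sum_add_distrib, ← Finset.mul_sum]
      have e5 : ∑ k ∈ range r, (if k = 0 then ε else 0) ≤ ε := by
        rw [Finset.sum_ite_eq' (range r) 0 (fun _ => ε)]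
        split_ifs
        · exact le_rfl
        · exact hε0.le
      have e6 : ∑ k ∈ range r, dd (k + (lam + 1)) ≤ ∑' k, dd (k + (lam + 1)) :=
        ((summable_nat_add_iff (lam + 1)).2 hsum).sum_le_tsum _ (fun k _ => dd_nonneg _)
      have e7 := mul_le_mul_of_nonneg_left e6 (show 0 ≤ C + 1 by linarith)
      linarith
    have e8 : ((lam : ℝ) + 1) * ε + ε = (lam + 2) * ε := by ring
    linarith
  have hε8 : ((lam : ℝ) + 3) * ε = 1 / 8 := by
    rw [hε]; field_simp
  have hC1 : C * 1 * (1 / Real.sqrt ((lam : ℝ) + 1)) + C * Sg * (1 / Real.sqrt ((lam : ℝ) + 1)) =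
      C * (1 + Sg) * (1 / Real.sqrt ((lam : ℝ) + 1)) := by ring
  have htot : |bt s m m Θ| ≤ 3 / 8 := by
    have : ((lam : ℝ) + 2) * ε + ε = (lam + 3) * ε := by ring
    linarith
  rw [hbt] at htot
  have h9 := abs_le.1 htot
  have h10 := abs_le.1 hsmall
  linarith [h9.1, h9.2, h10.1, h10.2]

end Pool.Agent.Y284.ID
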