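import Pool.Agent.Y284.ID.Core
import Pool.Agent.Y284.ID.Abs

set_option autoImplicit false

/-! # The space over `ℝ` or `ℂ` -/

open Filter Topology Finset
open scoped ENNReal

noncomputable section

namespace Pool.Agent.Y284.ID

open Pool.Agent.BAPp Pool.Agent.H812R2.AP Pool.Agent.H812R2.JS

variable (𝕜 : Type) [RCLike 𝕜]

/-- bounded scalar sequences -/
abbrev LK := lp (fun _ : ℕ => 𝕜) ∞

variable {𝕜}

lemma norm_ev_leK (i : ℕ) (z : LK 𝕜) : ‖z i‖ ≤ ‖z‖ :=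
  lp.norm_apply_le_norm ENNReal.top_ne_zero z i

lemma norm_le_ofK {z : LK 𝕜} {C : ℝ} (hC : 0 ≤ C) (h : ∀ i, ‖z i‖ ≤ C) : ‖z‖ ≤ C :=
  lp.norm_le_of_forall_le hC h

/-- real parts -/
def reK (𝕜 : Type) [RCLike 𝕜] : LK 𝕜 →L[ℝ] LL :=
  LinearMap.mkContinuous
    { toFun := fun z => ⟨fun i => RCLike.re (z i), by
        refine memℓp_infty ⟨‖z‖, ?_⟩
        rintro _ ⟨i, rfl⟩
        exact (by rw [Real.norm_eq_abs]; exact RCLike.abs_re_le_norm (z i) :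
          ‖RCLike.re (z i)‖ ≤ ‖z i‖).trans (norm_ev_leK i z)⟩
      map_add' := fun z z' => by
        apply lp.ext
        funext i
        change RCLike.re ((z + z' : LK 𝕜) i) = RCLike.re (z i) + RCLike.re (z' i)
        rw [lp.coeFn_add, Pi.add_apply, map_add]
      map_smul' := fun c z => by
        apply lp.ext
        funext i
        change RCLike.re ((c • z : LK 𝕜) i) = c * RCLike.re (z i)
        rw [lp.coeFn_smul, Pi.smul_apply, RCLike.smul_re] } 1 (fun z => by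
      rw [one_mul]
      refine norm_le_of (norm_nonneg _) fun i => ?_
      exact (RCLike.abs_re_le_norm (z i)).trans (norm_ev_leK i z))

/-- imaginary parts -/
def imK (𝕜 : Type) [RCLike 𝕜] : LK 𝕜 →L[ℝ] LL :=
  LinearMap.mkContinuous
    { toFun := fun z => ⟨fun i => RCLike.im (z i), by
        refine memℓp_infty ⟨‖z‖, ?_⟩
        rintro _ ⟨i, rfl⟩
        exact (by rw [Real.norm_eq_abs]; exact RCLike.abs_im_le_norm (z i) :
          ‖RCLike.im (z i)‖ ≤ ‖z i‖).trans (norm_ev_leK i z)⟩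
      map_add' := fun z z' => by
        apply lp.ext
        funext i
        change RCLike.im ((z + z' : LK 𝕜) i) = RCLike.im (z i) + RCLike.im (z' i)
        rw [lp.coeFn_add, Pi.add_apply, map_add]
      map_smul' := fun c z => by
        apply lp.ext
        funext i
        change RCLike.im ((c • z : LK 𝕜) i) = c * RCLike.im (z i)
        rw [lp.coeFn_smul, Pi.smul_apply, RCLike.smul_im] } 1 (fun z => by
      rw [one_mul]
      refine norm_le_of (norm_nonneg _) fun i => ?_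
      exact (RCLike.abs_im_le_norm (z i)).trans (norm_ev_leK i z))

lemma reK_apply (z : LK 𝕜) (i : ℕ) : (reK 𝕜) z i = RCLike.re (z i) := rfl
lemma imK_apply (z : LK 𝕜) (i : ℕ) : (imK 𝕜) z i = RCLike.im (z i) := rfl

lemma norm_reK_le (z : LK 𝕜) : ‖(reK 𝕜) z‖ ≤ ‖z‖ :=
  norm_le_of (norm_nonneg _) fun i => (RCLike.abs_re_le_norm (z i)).trans (norm_ev_leK i z)

lemma norm_imK_le (z : LK 𝕜) : ‖(imK 𝕜) z‖ ≤ ‖z‖ :=
  norm_le_of (norm_nonneg _) fun i => (RCLike.abs_im_le_norm (z i)).trans (norm_ev_leK i z)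

/-- combining real and imaginary parts -/
def mkK (𝕜 : Type) [RCLike 𝕜] (u v : LL) : LK 𝕜 :=
  ⟨fun i => (u i : 𝕜) + (v i : 𝕜) * RCLike.I, by
    refine memℓp_infty ⟨‖u‖ + ‖v‖, ?_⟩
    rintro _ ⟨i, rfl⟩
    refine (norm_add_le _ _).trans (add_le_add ?_ ?_)
    · rw [RCLike.norm_ofReal]; exact abs_ev_le i u
    · rw [norm_mul, RCLike.norm_ofReal]
      calc |v i| * ‖(RCLike.I : 𝕜)‖ ≤ |v i| * 1 :=
            mul_le_mul_of_nonneg_left (Cx.norm_I_le (𝕜 := 𝕜)) (abs_nonneg _)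
        _ ≤ ‖v‖ := by rw [mul_one]; exact abs_ev_le i v⟩

lemma mkK_apply (u v : LL) (i : ℕ) : mkK 𝕜 u v i = (u i : 𝕜) + (v i : 𝕜) * RCLike.I := rfl

lemma norm_mkK_le (u v : LL) : ‖mkK 𝕜 u v‖ ≤ ‖u‖ + ‖v‖ := by
  refine norm_le_ofK (by positivity) fun i => ?_
  refine (norm_add_le _ _).trans (add_le_add ?_ ?_)
  · rw [RCLike.norm_ofReal]; exact abs_ev_le i u
  · rw [norm_mul, RCLike.norm_ofReal]
    calc |v i| * ‖(RCLike.I : 𝕜)‖ ≤ |v i| * 1 :=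
          mul_le_mul_of_nonneg_left (Cx.norm_I_le (𝕜 := 𝕜)) (abs_nonneg _)
      _ ≤ ‖v‖ := by rw [mul_one]; exact abs_ev_le i v

lemma reK_mkK (u v : LL) : (reK 𝕜) (mkK 𝕜 u v) = u := by
  apply lp.ext
  funext i
  rw [reK_apply, mkK_apply]
  simp

lemma imK_mkK (u v : LL) : (imK 𝕜) (mkK 𝕜 u v) = (RCLike.im (RCLike.I : 𝕜)) • v := by
  apply lp.ext
  funext i
  rw [imK_apply, mkK_apply, lp.coeFn_smul, Pi.smul_apply, smul_eq_mul]
  simp [mul_comm]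

lemma mkK_re_im (z : LK 𝕜) : mkK 𝕜 ((reK 𝕜) z) ((imK 𝕜) z) = z := by
  apply lp.ext
  funext i
  rw [mkK_apply, reK_apply, imK_apply]
  exact RCLike.re_add_im (z i)

variable (s : Sys) (𝕜)

/-- the space over `𝕜` -/
def SK : Submodule 𝕜 (LK 𝕜) where
  carrier := {z | (reK 𝕜) z ∈ SS s ∧ (imK 𝕜) z ∈ SS s}
  add_mem' {a b} ha hb := by
    constructor
    · rw [map_add]; exact (SS s).add_mem ha.1 hb.1
    · rw [map_add]; exact (SS s).add_mem ha.2 hb.2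
  zero_mem' := by
    constructor
    · rw [map_zero]; exact (SS s).zero_mem
    · rw [map_zero]; exact (SS s).zero_mem
  smul_mem' c z hz := by
    have h1 : (reK 𝕜) (c • z) = RCLike.re c • (reK 𝕜) z - RCLike.im c • (imK 𝕜) z := by
      apply lp.ext
      funext i
      simp only [reK_apply, imK_apply, lp.coeFn_smul, lp.coeFn_sub, Pi.smul_apply, Pi.sub_apply,
        smul_eq_mul, RCLike.mul_re]
    have h2 : (imK 𝕜) (c • z) = RCLike.re c • (imK 𝕜) z + RCLike.im c • (reK 𝕜) z := by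
      apply lp.ext
      funext i
      simp only [reK_apply, imK_apply, lp.coeFn_smul, lp.coeFn_add, Pi.smul_apply, Pi.add_apply,
        smul_eq_mul, RCLike.mul_im]
    constructor
    · rw [h1]
      exact (SS s).sub_mem ((SS s).smul_mem _ hz.1) ((SS s).smul_mem _ hz.2)
    · rw [h2]
      exact (SS s).add_mem ((SS s).smul_mem _ hz.2) ((SS s).smul_mem _ hz.1)

variable {𝕜}

lemma reK_smul (c : 𝕜) (z : LK 𝕜) : (reK 𝕜) (c • z) = RCLike.re c • (reK 𝕜) z - RCLike.im c • (imK 𝕜) z := by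
  apply lp.ext
  funext i
  simp only [reK_apply, imK_apply, lp.coeFn_smul, lp.coeFn_sub, Pi.smul_apply, Pi.sub_apply,
    smul_eq_mul, RCLike.mul_re]

lemma imK_smul (c : 𝕜) (z : LK 𝕜) : (imK 𝕜) (c • z) = RCLike.re c • (imK 𝕜) z + RCLike.im c • (reK 𝕜) z := by
  apply lp.ext
  funext i
  simp only [reK_apply, imK_apply, lp.coeFn_smul, lp.coeFn_add, Pi.smul_apply, Pi.add_apply,
    smul_eq_mul, RCLike.mul_im]

lemma mem_SK {z : LK 𝕜} : z ∈ SK 𝕜 s ↔ (reK 𝕜) z ∈ SS s ∧ (imK 𝕜) z ∈ SS s := Iff.rfl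

lemma isClosed_SK : IsClosed (SK 𝕜 s : Set (LK 𝕜)) := by
  have h : (SK 𝕜 s : Set (LK 𝕜)) = ((reK 𝕜) ⁻¹' (SS s : Set LL)) ∩ ((imK 𝕜) ⁻¹' (SS s : Set LL)) := rfl
  rw [h]
  exact ((isClosed_SS s).preimage (reK 𝕜).continuous).inter ((isClosed_SS s).preimage (imK 𝕜).continuous)

instance : CompleteSpace (SK 𝕜 s) := (isClosed_SK s).completeSpace_coe


/-- real part, into the real space -/
def reS (z : SK 𝕜 s) : SS s := ⟨(reK 𝕜) (z : LK 𝕜), z.2.1⟩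

/-- imaginary part, into the real space -/
def imS (z : SK 𝕜 s) : SS s := ⟨(imK 𝕜) (z : LK 𝕜), z.2.2⟩

lemma mkK_mem (u : SS s) : mkK 𝕜 (u : LL) 0 ∈ SK 𝕜 s := by
  rw [mem_SK, reK_mkK, imK_mkK, smul_zero]
  exact ⟨u.2, (SS s).zero_mem⟩

/-- the real space inside the space over `𝕜` -/
def incS (𝕜 : Type) [RCLike 𝕜] (u : SS s) : SK 𝕜 s := ⟨mkK 𝕜 (u : LL) 0, mkK_mem s u⟩

lemma incS_apply (u : SS s) (i : ℕ) : (incS s 𝕜 u : LK 𝕜) i = (((u : LL) i : ℝ) : 𝕜) := by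
  change mkK 𝕜 (u : LL) 0 i = _
  rw [mkK_apply, lp.coeFn_zero, Pi.zero_apply]
  simp

lemma extS {x y : SK 𝕜 s} (h : ∀ i, (x : LK 𝕜) i = (y : LK 𝕜) i) : x = y :=
  Subtype.ext (lp.ext (funext h))

lemma addS (x y : SK 𝕜 s) (i : ℕ) : ((x + y : SK 𝕜 s) : LK 𝕜) i = (x : LK 𝕜) i + (y : LK 𝕜) i := rfl

lemma smulS (a : 𝕜) (x : SK 𝕜 s) (i : ℕ) : ((a • x : SK 𝕜 s) : LK 𝕜) i = a * (x : LK 𝕜) i := rfl

lemma decS (z : SK 𝕜 s) : incS s 𝕜 (reS s z) + (RCLike.I : 𝕜) • incS s 𝕜 (imS s z) = z := by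
  refine extS s fun i => ?_
  rw [addS, smulS, incS_apply, incS_apply]
  change ((RCLike.re ((z : LK 𝕜) i) : ℝ) : 𝕜) + RCLike.I * ((RCLike.im ((z : LK 𝕜) i) : ℝ) : 𝕜) = _
  rw [mul_comm]
  exact RCLike.re_add_im _

lemma incS_add (u v : SS s) : incS s 𝕜 (u + v) = incS s 𝕜 u + incS s 𝕜 v := by
  refine extS s fun i => ?_
  rw [addS, incS_apply, incS_apply, incS_apply]
  have : ((u + v : SS s) : LL) i = (u : LL) i + (v : LL) i := rfl
  rw [this]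
  push_cast
  ring

lemma incS_smul (a : ℝ) (u : SS s) : incS s 𝕜 (a • u) = (a : 𝕜) • incS s 𝕜 u := by
  refine extS s fun i => ?_
  rw [smulS, incS_apply, incS_apply]
  have : ((a • u : SS s) : LL) i = a * (u : LL) i := rfl
  rw [this]
  push_cast
  ring

lemma norm_incS_le (u : SS s) : ‖incS s 𝕜 u‖ ≤ ‖u‖ := by
  refine norm_le_ofK (norm_nonneg _) fun i => ?_
  change ‖(incS s 𝕜 u : LK 𝕜) i‖ ≤ ‖u‖
  rw [incS_apply, RCLike.norm_ofReal]
  exact abs_ev_le i (u : LL)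

/-- the structure relating the two spaces -/
def cxS (𝕜 : Type) [RCLike 𝕜] : Cx 𝕜 (SS s) (SK 𝕜 s) where
  re := reS s
  im := imS s
  inc := incS s 𝕜
  re_add x y := Subtype.ext (map_add (reK 𝕜) (x : LK 𝕜) (y : LK 𝕜))
  im_add x y := Subtype.ext (map_add (imK 𝕜) (x : LK 𝕜) (y : LK 𝕜))
  re_smul a x := Subtype.ext (reK_smul a (x : LK 𝕜))
  im_smul a x := Subtype.ext (imK_smul a (x : LK 𝕜))
  inc_add := incS_add s
  inc_smul := incS_smul s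
  re_inc u := Subtype.ext (reK_mkK (u : LL) 0)
  dec := decS s
  norm_re_le z := norm_reK_le (z : LK 𝕜)
  norm_im_le z := norm_imK_le (z : LK 𝕜)
  norm_inc_le := norm_incS_le s

theorem hasAP_SK : HasAP 𝕜 (SK 𝕜 s) := (cxS s 𝕜).hasAP (hasAP s)

/-- coordinate functionals -/
def cf (𝕜 : Type) [RCLike 𝕜] (i : ℕ) : SK 𝕜 s →L[𝕜] 𝕜 :=
  LinearMap.mkContinuous
    { toFun := fun z => (z : LK 𝕜) i
      map_add' := fun z z' => rfl
      map_smul' := fun c z => rfl } 1 (fun z => by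
      rw [one_mul]
      exact norm_ev_leK i (z : LK 𝕜))

lemma cf_apply (i : ℕ) (z : SK 𝕜 s) : cf s 𝕜 i z = (z : LK 𝕜) i := rfl

lemma norm_wt_mul_le (z : SK 𝕜 s) (i : ℕ) : ‖(wt i : 𝕜) * (z : LK 𝕜) i‖ ≤ ‖z‖ := by
  rw [norm_mul, RCLike.norm_ofReal, abs_of_nonneg (wt_nonneg i)]
  calc wt i * ‖(z : LK 𝕜) i‖ ≤ 1 * ‖(z : LK 𝕜) i‖ :=
        mul_le_mul_of_nonneg_right (wt_le_one i) (norm_nonneg _)
    _ ≤ ‖z‖ := by rw [one_mul]; exact norm_ev_leK i (z : LK 𝕜)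

/-- the diagonal operator on one vector -/
def T0f (z : SK 𝕜 s) : LK 𝕜 := ⟨fun i => (wt i : 𝕜) * (z : LK 𝕜) i, by
  refine memℓp_infty ⟨‖z‖, ?_⟩
  rintro _ ⟨i, rfl⟩
  exact norm_wt_mul_le s z i⟩

lemma T0f_apply (z : SK 𝕜 s) (i : ℕ) : T0f s z i = (wt i : 𝕜) * (z : LK 𝕜) i := rfl

/-- the diagonal operator -/
def T0 (𝕜 : Type) [RCLike 𝕜] : SK 𝕜 s →L[𝕜] LK 𝕜 :=
  LinearMap.mkContinuous
    { toFun := T0f s
      map_add' := fun z z' => by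
        apply lp.ext
        funext i
        change (wt i : 𝕜) * ((z : LK 𝕜) i + (z' : LK 𝕜) i) =
          (wt i : 𝕜) * (z : LK 𝕜) i + (wt i : 𝕜) * (z' : LK 𝕜) i
        rw [mul_add]
      map_smul' := fun c z => by
        apply lp.ext
        funext i
        change (wt i : 𝕜) * (c * (z : LK 𝕜) i) = c * ((wt i : 𝕜) * (z : LK 𝕜) i)
        ring } 1 (fun z => by
      rw [one_mul]
      exact norm_le_ofK (norm_nonneg _) fun i => norm_wt_mul_le s z i)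

lemma T0_apply (z : SK 𝕜 s) (i : ℕ) : T0 s 𝕜 z i = (wt i : 𝕜) * (z : LK 𝕜) i := rfl

/-- the truncated diagonal operator -/
def TF (𝕜 : Type) [RCLike 𝕜] (F : Finset ℕ) : SK 𝕜 s →L[𝕜] LK 𝕜 :=
  ∑ i ∈ F, ((wt i : 𝕜) • cf s 𝕜 i).smulRight (lp.single (E := fun _ : ℕ => 𝕜) ∞ i (1 : 𝕜))

lemma TF_finRank (F : Finset ℕ) : FinRank (TF s 𝕜 F) :=
  mem_frSub.1 (Submodule.sum_mem _ fun _ _ => finRank_smulRight _ _)

lemma TF_apply (F : Finset ℕ) (z : SK 𝕜 s) (j : ℕ) :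
    TF s 𝕜 F z j = if j ∈ F then (wt j : 𝕜) * (z : LK 𝕜) j else 0 := by
  have h2 : TF s 𝕜 F z = ∑ i ∈ F, ((wt i : 𝕜) * (z : LK 𝕜) i) •
      lp.single (E := fun _ : ℕ => 𝕜) ∞ i (1 : 𝕜) := by
    unfold TF
    rw [_root_.sum_apply]
    rfl
  rw [h2, lp.coeFn_sum, Finset.sum_apply]
  simp only [lp.coeFn_smul, Pi.smul_apply, smul_eq_mul]
  by_cases hj : j ∈ F
  · rw [if_pos hj, Finset.sum_eq_single j]
    · rw [lp.single_apply_self, mul_one]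
    · intro i _ hij
      rw [lp.single_apply_ne _ _ _ hij.symm, mul_zero]
    · exact fun h => absurd hj h
  · rw [if_neg hj]
    refine Finset.sum_eq_zero fun i hi => ?_
    have hij : j ≠ i := fun h => hj (h ▸ hi)
    rw [lp.single_apply_ne _ _ _ hij, mul_zero]

lemma T0_sub_TF (ε : ℝ) (hε : 0 < ε) (F : Finset ℕ) (hF : ∀ j, j ∉ F → wt j < ε) :
    ‖T0 s 𝕜 - TF s 𝕜 F‖ ≤ ε := by
  refine ContinuousLinearMap.opNorm_le_bound _ hε.le fun z => ?_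
  refine norm_le_ofK (by positivity) fun j => ?_
  have h3 : ((T0 s 𝕜 - TF s 𝕜 F) z : LK 𝕜) j = T0 s 𝕜 z j - TF s 𝕜 F z j := rfl
  rw [h3, TF_apply, T0_apply]
  by_cases hj : j ∈ F
  · rw [if_pos hj, sub_self, norm_zero]
    positivity
  · rw [if_neg hj, sub_zero, norm_mul, RCLike.norm_ofReal, abs_of_nonneg (wt_nonneg j)]
    exact mul_le_mul (hF j hj).le (norm_ev_leK j (z : LK 𝕜)) (norm_nonneg _) hε.le

lemma T0_mem : T0 s 𝕜 ∈ (approxIdeal 𝕜).mem ⟨SK 𝕜 s⟩ ⟨LK 𝕜⟩ := by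
  have h : ∀ ε : ℝ, 0 < ε → ∃ U : SK 𝕜 s →L[𝕜] LK 𝕜, FinRank U ∧ ‖T0 s 𝕜 - U‖ ≤ ε := by
    intro ε hε
    refine ⟨TF s 𝕜 (wt_finite ε hε).toFinset, TF_finRank s _, T0_sub_TF s ε hε _ fun j hj => ?_⟩
    by_contra hcon
    exact hj ((Set.Finite.mem_toFinset _).2 (not_lt.1 hcon))
  exact mem_approx_of ⟨SK 𝕜 s⟩ ⟨LK 𝕜⟩ _ h

/-- The main negative statement. -/
theorem noBAP_SK (lam : ℝ) : ¬ HasBAPFor (approxIdeal 𝕜) lam ⟨SK 𝕜 s⟩ := by
  refine noBAP_of_cx (cxS s 𝕜) (T0 s 𝕜) (T0_mem s)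
    (fun u i => wt i * |(u : LL) i|) (fun z i => ?_) (fun C hC0 => noBAP' s C hC0) lam
  have h1 : ‖T0 s 𝕜 z i‖ ≤ ‖T0 s 𝕜 z‖ := norm_ev_leK i _
  refine le_trans ?_ h1
  rw [T0_apply, norm_mul, RCLike.norm_ofReal, abs_of_nonneg (wt_nonneg i)]
  exact mul_le_mul_of_nonneg_left (RCLike.abs_re_le_norm _) (wt_nonneg i)

end Pool.Agent.Y284.ID
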