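import Mathlib

set_option autoImplicit false

/-! # Banach operator ideals and approximation properties for them -/

open Filter Topology

namespace Pool.Agent.Y284.ID

/-- `T` has finite rank. -/
def FinRank {𝕜 X Y : Type} [RCLike 𝕜] [NormedAddCommGroup X] [NormedSpace 𝕜 X]
    [NormedAddCommGroup Y] [NormedSpace 𝕜 Y] (T : X →L[𝕜] Y) : Prop :=
  FiniteDimensional 𝕜 (LinearMap.range (T : X →ₗ[𝕜] Y))

/-- A Banach space over `𝕜`. -/
structure Ban (𝕜 : Type) [RCLike 𝕜] where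
  /-- the underlying type -/
  E : Type
  [grp : NormedAddCommGroup E]
  [spc : NormedSpace 𝕜 E]
  [cpl : CompleteSpace E]

attribute [instance] Ban.grp Ban.spc Ban.cpl

/-- The bounded linear operators `X → Y`. -/
abbrev Op {𝕜 : Type} [RCLike 𝕜] (X Y : Ban 𝕜) : Type := X.E →L[𝕜] Y.E

/-- To each pair of Banach spaces `X, Y` a linear subspace `mem X Y` of the bounded operators and
a function `nrm X Y` (only its values on `mem X Y` matter). -/
structure IdealData (𝕜 : Type) [RCLike 𝕜] where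
  /-- the operators in the ideal -/
  mem : ∀ X Y : Ban 𝕜, Submodule 𝕜 (Op X Y)
  /-- the ideal norm -/
  nrm : ∀ X Y : Ban 𝕜, Op X Y → ℝ

variable {𝕜 : Type} [RCLike 𝕜]

/-- `nrm X Y` is a norm on `mem X Y`. -/
structure IsNormOn (A : IdealData 𝕜) (X Y : Ban 𝕜) : Prop where
  nonneg : ∀ T ∈ A.mem X Y, 0 ≤ A.nrm X Y T
  eq_zero : ∀ T ∈ A.mem X Y, A.nrm X Y T = 0 → T = 0
  smul : ∀ (c : 𝕜), ∀ T ∈ A.mem X Y, A.nrm X Y (c • T) = ‖c‖ * A.nrm X Y T
  add_le : ∀ S ∈ A.mem X Y, ∀ T ∈ A.mem X Y, A.nrm X Y (S + T) ≤ A.nrm X Y S + A.nrm X Y T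

/-- `mem X Y` is complete for `nrm X Y`. -/
def IsCompleteOn (A : IdealData 𝕜) (X Y : Ban 𝕜) : Prop :=
  ∀ T : ℕ → Op X Y, (∀ n, T n ∈ A.mem X Y) →
    (∀ ε : ℝ, 0 < ε → ∃ N : ℕ, ∀ m ≥ N, ∀ n ≥ N, A.nrm X Y (T m - T n) < ε) →
    ∃ S ∈ A.mem X Y, Tendsto (fun n => A.nrm X Y (T n - S)) atTop (𝓝 0)

/-- `A` is a Banach operator ideal. -/
structure IsBanachIdeal (A : IdealData 𝕜) : Prop where
  finRank_mem : ∀ (X Y : Ban 𝕜) (T : Op X Y), FinRank T → T ∈ A.mem X Y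
  norm : ∀ X Y : Ban 𝕜, IsNormOn A X Y
  complete : ∀ X Y : Ban 𝕜, IsCompleteOn A X Y
  rankOne : ∀ (X Y : Ban 𝕜) (f : X.E →L[𝕜] 𝕜) (y : Y.E),
    A.nrm X Y (f.smulRight y) = ‖f‖ * ‖y‖
  comp : ∀ (W X Y Z : Ban 𝕜) (S : Op W X) (T : Op X Y) (R : Op Y Z), T ∈ A.mem X Y →
    R.comp (T.comp S) ∈ A.mem W Z ∧ A.nrm W Z (R.comp (T.comp S)) ≤ ‖R‖ * A.nrm X Y T * ‖S‖

/-- `X` has the `lam`-BAP for the ideal `A`. -/
def HasBAPFor (A : IdealData 𝕜) (lam : ℝ) (X : Ban 𝕜) : Prop :=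
  ∀ (Y : Ban 𝕜), ∀ T ∈ A.mem X Y,
    ∃ (ι : Type) (_ : Preorder ι) (_ : IsDirectedOrder ι) (_ : Nonempty ι) (S : ι → Op X X),
      (∀ α, FinRank (S α)) ∧
      (∀ K : Set X.E, IsCompact K →
        TendstoUniformlyOn (fun α x => S α x) (fun x => x) atTop K) ∧
      limsup (fun α => ((A.nrm X Y (T.comp (S α)) : ℝ) : EReal)) atTop ≤
        ((lam * A.nrm X Y T : ℝ) : EReal)

/-- `X` satisfies condition `(P_lam)` for the ideal `A`. -/
def CondP (A : IdealData 𝕜) (lam : ℝ) (X : Ban 𝕜) : Prop :=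
  ∀ (Y : Ban 𝕜), ∀ T ∈ A.mem X Y,
    ∃ (ι : Type) (_ : Preorder ι) (_ : IsDirectedOrder ι) (_ : Nonempty ι) (S : ι → Op X Y),
      (∀ α, FinRank (S α)) ∧
      (∀ x : X.E, Tendsto (fun α => S α x) atTop (𝓝 (T x))) ∧
      limsup (fun α => ((A.nrm X Y (S α) : ℝ) : EReal)) atTop ≤
        ((lam * A.nrm X Y T : ℝ) : EReal)

/-- `X` has the approximation property. -/
def HasAP (𝕜 : Type) [RCLike 𝕜] (X : Type) [NormedAddCommGroup X] [NormedSpace 𝕜 X] : Prop :=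
  ∀ K : Set X, IsCompact K → ∀ ε : ℝ, 0 < ε →
    ∃ T : X →L[𝕜] X, FinRank T ∧ ∀ x ∈ K, ‖T x - x‖ ≤ ε

/-! ## The ideal of approximable operators -/

section FinRank

variable {X Y : Type} [NormedAddCommGroup X] [NormedSpace 𝕜 X]
  [NormedAddCommGroup Y] [NormedSpace 𝕜 Y]

lemma finRank_zero : FinRank (0 : X →L[𝕜] Y) := by
  unfold FinRank
  have : LinearMap.range ((0 : X →L[𝕜] Y) : X →ₗ[𝕜] Y) = ⊥ := by
    rw [ContinuousLinearMap.toLinearMap_zero, LinearMap.range_zero]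
  rw [this]
  infer_instance

lemma finRank_add {S T : X →L[𝕜] Y} (hS : FinRank S) (hT : FinRank T) : FinRank (S + T) := by
  unfold FinRank at *
  have h : LinearMap.range ((S + T : X →L[𝕜] Y) : X →ₗ[𝕜] Y) ≤
      LinearMap.range (S : X →ₗ[𝕜] Y) ⊔ LinearMap.range (T : X →ₗ[𝕜] Y) := by
    rintro _ ⟨x, rfl⟩
    exact Submodule.add_mem_sup ⟨x, rfl⟩ ⟨x, rfl⟩
  exact Submodule.finiteDimensional_of_le h

lemma finRank_smul (c : 𝕜) {T : X →L[𝕜] Y} (hT : FinRank T) : FinRank (c • T) := by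
  unfold FinRank at *
  have h : LinearMap.range ((c • T : X →L[𝕜] Y) : X →ₗ[𝕜] Y) ≤
      LinearMap.range (T : X →ₗ[𝕜] Y) := by
    rintro _ ⟨x, rfl⟩
    exact ⟨c • x, by simp⟩
  exact Submodule.finiteDimensional_of_le h

lemma finRank_smulRight (f : X →L[𝕜] 𝕜) (y : Y) : FinRank (f.smulRight y) := by
  unfold FinRank
  have h : LinearMap.range ((f.smulRight y : X →L[𝕜] Y) : X →ₗ[𝕜] Y) ≤
      Submodule.span 𝕜 {y} := by
    rintro _ ⟨x, rfl⟩
    exact Submodule.smul_mem _ _ (Submodule.mem_span_singleton_self y)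
  exact Submodule.finiteDimensional_of_le h

lemma finRank_comp {W Z : Type} [NormedAddCommGroup W] [NormedSpace 𝕜 W]
    [NormedAddCommGroup Z] [NormedSpace 𝕜 Z] (S : W →L[𝕜] X) {T : X →L[𝕜] Y} (R : Y →L[𝕜] Z)
    (hT : FinRank T) : FinRank (R.comp (T.comp S)) := by
  unfold FinRank at *
  have h : LinearMap.range ((R.comp (T.comp S) : W →L[𝕜] Z) : W →ₗ[𝕜] Z) ≤
      (LinearMap.range (T : X →ₗ[𝕜] Y)).map (R : Y →ₗ[𝕜] Z) := by
    rintro _ ⟨x, rfl⟩
    exact ⟨T (S x), ⟨S x, rfl⟩, rfl⟩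
  exact Submodule.finiteDimensional_of_le h

variable (𝕜 X Y) in
/-- the subspace of finite-rank operators -/
def frSub : Submodule 𝕜 (X →L[𝕜] Y) where
  carrier := {T | FinRank T}
  add_mem' := finRank_add
  zero_mem' := finRank_zero
  smul_mem' := fun c _ hT => finRank_smul c hT

lemma mem_frSub {T : X →L[𝕜] Y} : T ∈ frSub 𝕜 X Y ↔ FinRank T := Iff.rfl

end FinRank

/-- The ideal of approximable operators: the closure of the finite-rank operators in the operator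
norm, with the operator norm. -/
noncomputable def approxIdeal (𝕜 : Type) [RCLike 𝕜] : IdealData 𝕜 where
  mem X Y := (frSub 𝕜 X.E Y.E).topologicalClosure
  nrm _ _ T := ‖T‖

theorem isBanachIdeal_approx (𝕜 : Type) [RCLike 𝕜] : IsBanachIdeal (approxIdeal 𝕜) where
  finRank_mem X Y T hT := Submodule.le_topologicalClosure _ hT
  norm X Y :=
    { nonneg := fun T _ => norm_nonneg T
      eq_zero := fun T _ h => norm_eq_zero.1 h
      smul := fun c T _ => norm_smul c T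
      add_le := fun S _ T _ => norm_add_le S T }
  complete X Y := by
    intro T hT hC
    have hcs : CauchySeq T := by
      rw [Metric.cauchySeq_iff]
      intro ε hε
      obtain ⟨N, hN⟩ := hC ε hε
      exact ⟨N, fun m hm n hn => by rw [dist_eq_norm]; exact hN m hm n hn⟩
    obtain ⟨S, hS⟩ := cauchySeq_tendsto_of_complete hcs
    refine ⟨S, ?_, ?_⟩
    · exact (Submodule.isClosed_topologicalClosure _).mem_of_tendsto hS
        (Eventually.of_forall hT)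
    · have h1 := (hS.sub_const S).norm
      rw [sub_self, norm_zero] at h1
      exact h1
  rankOne X Y f y := ContinuousLinearMap.norm_smulRight_apply f y
  comp W X Y Z S T R hT := by
    constructor
    · have hcont : Continuous fun U : X.E →L[𝕜] Y.E => R.comp (U.comp S) := by fun_prop
      have hT' : T ∈ closure ((frSub 𝕜 X.E Y.E : Set (X.E →L[𝕜] Y.E))) := hT
      have h1 : R.comp (T.comp S) ∈ closure ((fun U : X.E →L[𝕜] Y.E => R.comp (U.comp S)) ''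
          (frSub 𝕜 X.E Y.E : Set (X.E →L[𝕜] Y.E))) :=
        image_closure_subset_closure_image hcont ⟨T, hT', rfl⟩
      refine closure_mono ?_ h1
      rintro _ ⟨U, hU, rfl⟩
      exact finRank_comp S R hU
    · calc ‖R.comp (T.comp S)‖ ≤ ‖R‖ * ‖T.comp S‖ := ContinuousLinearMap.opNorm_comp_le _ _
        _ ≤ ‖R‖ * (‖T‖ * ‖S‖) := by gcongr; exact ContinuousLinearMap.opNorm_comp_le _ _
        _ = ‖R‖ * ‖T‖ * ‖S‖ := by ring

lemma mem_approx_of (X Y : Ban 𝕜) (T : Op X Y)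
    (h : ∀ ε : ℝ, 0 < ε → ∃ U : X.E →L[𝕜] Y.E, FinRank U ∧ ‖T - U‖ ≤ ε) :
    T ∈ (approxIdeal 𝕜).mem X Y := by
  change T ∈ closure ((frSub 𝕜 X.E Y.E : Set (X.E →L[𝕜] Y.E)))
  refine Metric.mem_closure_iff.2 fun ε hε => ?_
  obtain ⟨U, hU, hUε⟩ := h (ε / 2) (by positivity)
  refine ⟨U, hU, ?_⟩
  rw [dist_eq_norm]
  linarith

/-- Every Banach space satisfies `(P_1)` for the approximable operators. -/
theorem condP_approx (X : Ban 𝕜) : CondP (approxIdeal 𝕜) 1 X := by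
  intro Y T hT
  have hT' : T ∈ closure ((frSub 𝕜 X.E Y.E : Set (X.E →L[𝕜] Y.E))) := hT
  obtain ⟨S, hS, hlim⟩ := mem_closure_iff_seq_limit.1 hT'
  refine ⟨ℕ, inferInstance, inferInstance, inferInstance, S, hS, fun x => ?_, ?_⟩
  · exact ((ContinuousLinearMap.apply 𝕜 Y.E x).continuous.tendsto T).comp hlim
  · have h1 : Tendsto (fun n => ((‖S n‖ : ℝ) : EReal)) atTop (𝓝 ((‖T‖ : ℝ) : EReal)) :=
      (continuous_coe_real_ereal.tendsto _).comp hlim.norm
    have h2 := h1.limsup_eq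
    change limsup (fun n => ((‖S n‖ : ℝ) : EReal)) atTop ≤ ((1 * ‖T‖ : ℝ) : EReal)
    rw [h2, one_mul]

end Pool.Agent.Y284.ID
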